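import Mathlib
import Pool.Agent.H40.CR.PTime

/-!
# The color-reversal number is NP-hard

We give a polynomial-time many-one reduction from VERTEX COVER to the decision problem CR, the
produced graphs being bipartite. Polynomial time is meant in the model of
`Pool.Agent.H7.Comp.Model`: while-programs over binary trees with unit cost.

* Graphs on `Fin n` are given to programs by `n` (in unary) and their adjacency matrix
  (`graphTree`); numbers are given in unary (`natTree`).
* `cr H` is the color-reversal number, see `Pool.Agent.H40.CR.Defs`.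
-/

namespace Pool.Agent.Results.MP_74d8ca_lc.NPHard

open Pool.Agent.H7.Comp Pool.Agent.H40.CR

lemma redFin_colorable (n : ℕ) (G : SimpleGraph (Fin n)) : (redFin n G).Colorable 2 := by
  refine ⟨SimpleGraph.Coloring.mk (fun p => if ((eV n).symm p).isLeft then 0 else 1) ?_⟩
  intro p q h
  unfold redFin at h
  rw [SimpleGraph.comap_adj] at h
  revert h
  generalize (eV n).symm p = x
  generalize (eV n).symm q = y
  rcases x with r | c <;> rcases y with r' | c'
  · intro h; exact absurd h (fun h => h)
  · intro _; simp
  · intro _; simp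
  · intro h; exact absurd h (fun h => h)

/-- **CR is NP-hard, even for bipartite graphs.** There is a program `r` which, given a graph `G`
on `n` vertices and a number `k`, computes in time polynomial in `n + k` a bipartite graph `H` and
a number `K` such that `G` has a vertex cover with at most `k` vertices if and only if the
color-reversal number of `H` is at most `K`. -/
theorem result :
    ∃ (r : Prog) (c : ℕ), ∀ (n k : ℕ) (G : SimpleGraph (Fin n)),
      ∃ (N K t : ℕ) (H : SimpleGraph (Fin N)),
        Run r (.node (graphTree G) (natTree k)) (.node (graphTree H) (natTree K)) t ∧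
        t ≤ (n + k + 2) ^ c ∧
        H.Colorable 2 ∧
        ((∃ S : Finset (Fin n), S.card ≤ k ∧ ∀ u v, G.Adj u v → u ∈ S ∨ v ∈ S) ↔
          cr H ≤ (K : ℕ∞)) := by
  -- bring the instances into the shape used by `redFun`
  have hpre : PT (fun x : (ℕ × List (List Bool)) × ℕ => (x.1.1, x.1.2, x.2)) :=
    PT.pair (PT.fst.comp PT.fst) (PT.pair (PT.snd.comp PT.fst) PT.snd)
  have hpost : PT (fun y : ℕ × List (List Bool) × ℕ => ((y.1, y.2.1), y.2.2)) :=
    PT.pair (PT.pair PT.fst (PT.fst.comp PT.snd)) (PT.snd.comp PT.snd)
  obtain ⟨r, T, ⟨c, hc⟩, _, hr⟩ := hpost.comp (pt_redFun.comp hpre)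
  refine ⟨r, 5 * c, fun n k G => ?_⟩
  obtain ⟨t, ht, hrun⟩ := hr ((n, adjMatrix G), k)
  have hsz : sz ((n, adjMatrix G), k) + 2 ≤ (n + k + 2) ^ 5 := by
    have h := sz_instance G k
    rw [sz_pair, sz_pair] at h ⊢
    omega
  simp only at hrun
  rw [redFun_spec] at hrun
  refine ⟨NN n, redK n k, t, redFin n G, ?_, ?_, redFin_colorable n G, cover_iff_fin n G k⟩
  · rw [graphTree_eq, graphTree_eq, natTree_eq, natTree_eq]
    exact hrun
  · refine (ht.trans (hc _)).trans ?_
    calc (sz ((n, adjMatrix G), k) + 2) ^ c ≤ ((n + k + 2) ^ 5) ^ c := Nat.pow_le_pow_left hsz c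
      _ = (n + k + 2) ^ (5 * c) := by rw [pow_mul]

end Pool.Agent.Results.MP_74d8ca_lc.NPHard
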